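import Pool.Agent.helper55.GL.Spec

/-!
# Project gl: module LOC: the gluing criterion for one graph
-/

set_option autoImplicit false

namespace Pool.Agent.GL

open SimpleGraph

theorem LOC_not {V : Type} {H : SimpleGraph V} {c : V → Bool} (hc : Pr H c) :
    Pr H (fun a => !c a) := by
  intro a b hab h
  have h1 : (!c a) = (!c b) := h
  exact hc a b hab (Bool.not_inj h1)

theorem LOC_12 (hCUT : CUT_stmt) (hJBD : JBD_stmt) (hJPR : JPR_stmt) (hFLP : FLP_stmt)
    (hSML : SML_stmt) (hCON : CON_stmt) {V : Type} [Fintype V] {H : SimpleGraph V}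
    {c : V → Bool} (hH : H.Connected) (hc : Pr H c) (h3 : 3 ≤ Fintype.card V) (hQ : QG H c)
    (v : V) : JB H v := by
  obtain ⟨hiso, hedge⟩ := (hCON V H hH).1 h3
  obtain ⟨C, N, hC⟩ := hQ
  obtain ⟨hp, -, -, -, hl, hr, -⟩ := hJPR V V H H v v
  have hcv : c v ≠ (fun a => !c a) v := by
    show c v ≠ !c v
    cases c v <;> simp
  have hJ : Pr (Join H H v v) (Sum.elim c (fun a => !c a)) := hp c _ hc (LOC_not hc) hcv
  have hJiso : ∀ a, ∃ b, (Join H H v v).Adj a b := by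
    intro a
    rcases a with a | a
    · obtain ⟨b, hb⟩ := hiso a
      exact ⟨Sum.inl b, hl a b hb⟩
    · obtain ⟨b, hb⟩ := hiso a
      exact ⟨Sum.inr b, hr a b hb⟩
  obtain ⟨C₁, hC₁⟩ := hJBD V V H H c (fun a => !c a) v v hc (LOC_not hc) hiso hiso hcv
  have h1 : ∀ n, N ≤ n → ex n (Join H H v v) ≤ (2 * C₁ * (2 * C + 1)) * ((fun _ => 0) n + ex n H + n) := by
    intro n hn
    have h2 := hCUT (V ⊕ V) (Join H H v v) (Sum.elim c (fun a => !c a)) hJ hJiso n
    have h3 := hC₁ n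
    rw [hFLP V H c Set.univ n] at h3
    have h4 := hC n hn
    calc ex n (Join H H v v) ≤ 2 * (C₁ * (exs n H c Set.univ + exs n H c Set.univ + n)) :=
          h2.trans (Nat.mul_le_mul_left 2 h3)
      _ ≤ 2 * (C₁ * (C * ex n H + C * ex n H + n)) := by gcongr
      _ ≤ 2 * (C₁ * ((2 * C + 1) * (0 + ex n H + n))) := by
          refine Nat.mul_le_mul_left 2 (Nat.mul_le_mul_left C₁ ?_)
          nlinarith [Nat.zero_le (C * n), Nat.zero_le (ex n H)]
      _ = (2 * C₁ * (2 * C + 1)) * (0 + ex n H + n) := by ring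
  obtain ⟨C', hC'⟩ := hSML V (V ⊕ V) H (Join H H v v) _ N (fun _ => 0) hedge h1
  refine ⟨C', fun n => ?_⟩
  have h5 := hC' n
  rwa [Nat.zero_add] at h5

theorem LOC_34 (hJPR : JPR_stmt) {V : Type} [Fintype V] {H : SimpleGraph V} {c : V → Bool}
    (hH : H.Connected) (hc : Pr H c) {v : V} (hv : JB H v) : Sy H := by
  obtain ⟨hp, hconn, hin, -, -, -, -, -, σ, hσ⟩ := hJPR V V H H v v
  have hcv : c v ≠ (fun a => !c a) v := by
    show c v ≠ !c v
    cases c v <;> simp
  refine ⟨V ⊕ V, inferInstance, Join H H v v, Sum.elim c (fun a => !c a), σ, hconn hH hH,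
    hp c _ hc (LOC_not hc) hcv, ?_, hin, hv⟩
  intro w
  rw [hσ w]
  rcases w with a | a
  · rfl
  · show c a = !!c a
    rw [Bool.not_not]

theorem LOC_41 (hSYM : SYM_stmt) (hSCL : SCL_stmt) (hCON : CON_stmt) {V : Type} [Fintype V]
    {H : SimpleGraph V} {c : V → Bool} (hH : H.Connected) (hc : Pr H c) (hS : Sy H) :
    QG H c := by
  obtain ⟨W, _, K, d, σ, hK, hd, hσ, ⟨α⟩, C, hC⟩ := hS
  have hα : ∀ a b, H.Adj a b → K.Adj (α a) (α b) := fun a b h => α.toHom.map_adj h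
  have hβ : ∀ a b, H.Adj a b → K.Adj (σ (α a)) (σ (α b)) :=
    fun a b h => σ.map_adj_iff.2 (hα a b h)
  have hαi : Function.Injective α := α.injective
  have hβi : Function.Injective (fun a => σ (α a)) := fun a b h => hαi (σ.injective h)
  have hdα : Pr H (fun a => d (α a)) := fun a b h => hd _ _ (hα a b h)
  have hfin : ∀ n, exs n H c Set.univ ≤ ex (2 * n) K := by
    rcases (hCON V H hH).2 c _ hc hdα with h | h
    · have h1 : ∀ a, d (α a) = c a := fun a => congrFun h a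
      refine hSYM V W H K c d α (fun a => σ (α a)) hK hd hαi hβi hα hβ h1 ?_
      intro a
      rw [hσ, h1]
    · have h1 : ∀ a, d (α a) = !c a := fun a => congrFun h a
      refine hSYM V W H K c d (fun a => σ (α a)) α hK hd hβi hαi hβ hα ?_ h1
      intro a
      rw [hσ, h1, Bool.not_not]
  refine ⟨6 * C, 2, fun n hn => ?_⟩
  calc exs n H c Set.univ ≤ ex (2 * n) K := hfin n
    _ ≤ 6 * ex n K := hSCL W K n hn
    _ ≤ 6 * (C * ex n H) := Nat.mul_le_mul_left 6 (hC n)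
    _ = 6 * C * ex n H := by ring

theorem LOC (hCUT : CUT_stmt) (hJBD : JBD_stmt) (hJPR : JPR_stmt) (hFLP : FLP_stmt)
    (hSML : SML_stmt) (hCON : CON_stmt) (hSYM : SYM_stmt) (hSCL : SCL_stmt) : LOC_stmt := by
  intro V _ H c hH hc h3
  tfae_have 1 → 2 := fun h v => LOC_12 hCUT hJBD hJPR hFLP hSML hCON hH hc h3 h v
  tfae_have 2 → 3 := by
    intro h
    obtain ⟨v⟩ := hH.nonempty
    exact ⟨v, h v⟩
  tfae_have 3 → 4 := by
    rintro ⟨v, hv⟩
    exact LOC_34 hJPR hH hc hv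
  tfae_have 4 → 1 := fun h => LOC_41 hSYM hSCL hCON hH hc h
  tfae_finish

end Pool.Agent.GL
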